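import Pool.Agent.Helper66_BN.Stmts
import Pool.Agent.Helper75_PP.Transport
import Pool.Agent.Helper51_AWC.WrChain

/-!
# Squad PP, part BN, module BCH: the alternating sum has two terms
-/

open scoped BigOperators

set_option linter.unusedSectionVars false

noncomputable section

namespace Pool.Agent.PP.BN.H9

open Pool.Agent.Helper51_AWC Pool.Agent.Helper79_WRA Pool.Agent.PP

section group

variable {D : Type} [Group D]

/-- two conjugates of `U` with a nontrivial common subgroup are equal -/
theorem conj_unique {U P : Subgroup D}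
    (ti : ∀ g x : D, x ∈ U → x ≠ 1 → g * x * g⁻¹ ∈ U → g ∈ Subgroup.normalizer (U : Set D))
    (hP : P ≠ ⊥) {g h : D} (hg : P ≤ conjS g U) (hh : P ≤ conjS h U) :
    conjS g U = conjS h U := by
  have h0 : ∃ x ∈ P, x ≠ 1 := by
    by_contra hc
    push Not at hc
    exact hP ((Subgroup.eq_bot_iff_forall P).2 hc)
  obtain ⟨x, hx, hx1⟩ := h0
  have h1 := mem_conjS.1 (hg hx)
  have h2 := mem_conjS.1 (hh hx)
  have h3 : h⁻¹ * g ∈ Subgroup.normalizer (U : Set D) := by
    apply ti (h⁻¹ * g) (g⁻¹ * x * g) h1
    · intro h0
      apply hx1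
      have : x = g * (g⁻¹ * x * g) * g⁻¹ := by group
      rw [this, h0]
      group
    · have : h⁻¹ * g * (g⁻¹ * x * g) * (h⁻¹ * g)⁻¹ = h⁻¹ * x * h := by group
      rw [this]
      exact h2
  rw [mem_normalizer_iff_conjS] at h3
  have h4 := congrArg (conjS h) h3
  rw [conjS_conjS] at h4
  have : h * (h⁻¹ * g) = g := by group
  rwa [this] at h4

theorem conjS_ne_bot {U : Subgroup D} (hU : U ≠ ⊥) (g : D) : conjS g U ≠ ⊥ := by
  intro h
  apply hU
  apply conjS_injective g
  rw [h, conjS, Subgroup.map_bot]

theorem norm_conjS (g : D) (U : Subgroup D) :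
    Subgroup.normalizer ((conjS g U : Subgroup D) : Set D) =
      conjS g (Subgroup.normalizer (U : Set D)) := by
  ext x
  rw [mem_normalizer_iff_conjS, mem_conjS, mem_normalizer_iff_conjS, conjS_conjS]
  constructor
  · intro h
    apply conjS_injective g
    rw [conjS_conjS, ← h]
    congr 1
    group
  · intro h
    have := congrArg (conjS g) h
    rw [conjS_conjS] at this
    rw [← this]
    congr 1
    group

open Classical in
/-- the closure operator -/
def cl (U P : Subgroup D) : Subgroup D :=
  if P = ⊥ then ⊥ else if h : ∃ g : D, P ≤ conjS g U then conjS h.choose U else ⊥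

theorem cl_bot (U : Subgroup D) : cl U ⊥ = ⊥ := if_pos rfl

theorem cl_eq {U P : Subgroup D}
    (ti : ∀ g x : D, x ∈ U → x ≠ 1 → g * x * g⁻¹ ∈ U → g ∈ Subgroup.normalizer (U : Set D))
    (hP : P ≠ ⊥) {g : D} (hg : P ≤ conjS g U) : cl U P = conjS g U := by
  have h : ∃ g : D, P ≤ conjS g U := ⟨g, hg⟩
  unfold cl
  rw [if_neg hP, dif_pos h]
  exact conj_unique ti hP h.choose_spec hg

end group

section count

variable {D : Type} [Group D] [Finite D]

theorem card_fib (U : Subgroup D) (k : D) :
    Nat.card {g : D // conjS g U = conjS k U} = Nat.card (Subgroup.normalizer (U : Set D)) := by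
  refine Nat.card_congr
    { toFun := fun g => ⟨k⁻¹ * g.1, ?_⟩
      invFun := fun n => ⟨k * n.1, ?_⟩
      left_inv := fun g => ?_
      right_inv := fun n => ?_ }
  · rw [mem_normalizer_iff_conjS]
    apply conjS_injective k
    rw [conjS_conjS]
    have h : k * (k⁻¹ * g.1) = g.1 := by group
    rw [h]
    exact g.2
  · have := mem_normalizer_iff_conjS.1 n.2
    have h := congrArg (conjS k) this
    rwa [conjS_conjS] at h
  · apply Subtype.ext
    change k * (k⁻¹ * g.1) = g.1
    group
  · apply Subtype.ext
    change k⁻¹ * (k * n.1) = n.1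
    group

end count

open Classical in
/-- general form: `U` is an `ℓ`-subgroup, every `ℓ`-subgroup is contained in a conjugate of `U`,
different conjugates of `U` intersect trivially. -/
theorem tic {ℓ : ℕ} {F : Type} [Field F] {D : Type} [Group D] [Finite D] {U : Subgroup D}
    (pU : IsPGroup ℓ U) (hU : U ≠ ⊥) (syl : ∀ P : Subgroup D, IsPGroup ℓ P → ∃ g : D, P ≤ conjS g U)
    (ti : ∀ g x : D, x ∈ U → x ≠ 1 → g * x * g⁻¹ ∈ U → g ∈ Subgroup.normalizer (U : Set D))
    {e : D → F} (he : IsCl e) :
    YY ℓ ⊤ e = (Nat.card D : ℤ) * ({f : D → F | f ∈ IBr F D ∧ actF e f = f}.ncard : ℤ) -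
      (Nat.card D : ℤ) * (lnum (Subgroup.normalizer (U : Set D)) e : ℤ) := by
  have := Fintype.ofFinite D
  set NU := Subgroup.normalizer (U : Set D) with hNU
  unfold YY
  set f : Finset (Subgroup D) → ℤ := fun d => (-1) ^ (d.card + 1) *
    ((Nat.card (stab d) : ℤ) * (lnum (stab d) e : ℤ)) with hf
  change ∑ d ∈ chainsOn (psubIn ℓ ⊤) ⊥, f d = _
  have hcl : ∀ P : Subgroup D, IsPGroup ℓ P → P ≤ cl U P ∧ IsPGroup ℓ (cl U P) := by
    intro P hP
    by_cases h : P = ⊥
    · rw [h, cl_bot]
      exact ⟨le_rfl, IsPGroup.of_bot⟩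
    · obtain ⟨g, hg⟩ := syl P hP
      rw [cl_eq ti h hg]
      exact ⟨hg, conjS_pgroup pU⟩
  rw [sum_closure (psubIn ℓ (⊤ : Subgroup D)) ⊥ (cl U)]
  · -- the closed chains
    let C : Finset (Subgroup D) := Finset.univ.image fun g : D => conjS g U
    have hclosed : (chainsOn (psubIn ℓ (⊤ : Subgroup D)) ⊥).filter (fun d => ∀ x ∈ d, cl U x = x) =
        insert {⊥} (C.image fun V => {⊥, V}) := by
      ext d
      rw [Finset.mem_filter, Finset.mem_insert, Finset.mem_image, mem_chainsOn]
      constructor
      · rintro ⟨⟨h1, h2, h3⟩, h4⟩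
        have hconj : ∀ V ∈ d, V ≠ ⊥ → ∃ g, conjS g U = V := by
          intro V hV hV1
          obtain ⟨g, hg⟩ := syl V (H75.mem_psubIn'.1 (h1 hV)).2
          exact ⟨g, by rw [← cl_eq ti hV1 hg, h4 V hV]⟩
        by_cases hd : ∃ V ∈ d, V ≠ ⊥
        · obtain ⟨V, hV, hV1⟩ := hd
          right
          obtain ⟨g, hg⟩ := hconj V hV hV1
          refine ⟨V, Finset.mem_image.2 ⟨g, Finset.mem_univ _, hg⟩, ?_⟩
          ext W
          rw [Finset.mem_insert, Finset.mem_singleton]
          constructor
          · rintro (rfl | rfl)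
            · exact h2
            · exact hV
          · intro hW
            by_cases hW1 : W = ⊥
            · left; exact hW1
            · right
              obtain ⟨k, hk⟩ := hconj W hW hW1
              rcases chain_total h3 hW hV with h | h
              · rw [← hk, ← hg]
                exact conj_unique ti hW1 hk.ge (hg ▸ h)
              · rw [← hk, ← hg]
                exact conj_unique ti hV1 (hk ▸ h) hg.ge
        · left
          push Not at hd
          ext W
          rw [Finset.mem_singleton]
          constructor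
          · intro hW; exact hd W hW
          · rintro rfl; exact h2
      · rintro (rfl | ⟨V, hV, rfl⟩)
        · refine ⟨⟨?_, Finset.mem_singleton_self _, ?_⟩, ?_⟩
          · intro W hW
            rw [Finset.mem_singleton.1 hW, H75.mem_psubIn']
            exact ⟨le_top, IsPGroup.of_bot⟩
          · intro x hx y hy hxy
            rw [Finset.mem_coe, Finset.mem_singleton] at hx hy
            exact absurd (hx.trans hy.symm) hxy
          · intro W hW
            rw [Finset.mem_singleton.1 hW, cl_bot]
        · obtain ⟨g, -, rfl⟩ := Finset.mem_image.1 hV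
          refine ⟨⟨?_, Finset.mem_insert_self _ _, ?_⟩, ?_⟩
          · intro W hW
            rw [H75.mem_psubIn']
            rcases Finset.mem_insert.1 hW with rfl | h
            · exact ⟨le_top, IsPGroup.of_bot⟩
            · rw [Finset.mem_singleton.1 h]
              exact ⟨le_top, conjS_pgroup pU⟩
          · intro x hx y hy hxy
            rw [Finset.mem_coe, Finset.mem_insert, Finset.mem_singleton] at hx hy
            rcases hx with rfl | rfl
            · left; exact bot_le
            · rcases hy with rfl | rfl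
              · right; exact bot_le
              · exact absurd rfl hxy
          · intro W hW
            rcases Finset.mem_insert.1 hW with rfl | h
            · exact cl_bot U
            · rw [Finset.mem_singleton.1 h]
              exact cl_eq ti (conjS_ne_bot hU g) le_rfl
    have hstab0 : stab ({⊥} : Finset (Subgroup D)) = ⊤ := by
      rw [eq_top_iff]
      intro x _
      rw [mem_stab]
      intro W hW
      rw [Finset.mem_singleton.1 hW, conjS, Subgroup.map_bot]
    have hstab1 : ∀ V : Subgroup D, stab ({⊥, V} : Finset (Subgroup D)) =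
        Subgroup.normalizer (V : Set D) := by
      intro V
      ext x
      rw [mem_stab, mem_normalizer_iff_conjS]
      constructor
      · intro h
        exact h V (Finset.mem_insert_of_mem (Finset.mem_singleton_self _))
      · intro h W hW
        rcases Finset.mem_insert.1 hW with rfl | h'
        · rw [conjS, Subgroup.map_bot]
        · rw [Finset.mem_singleton.1 h']
          exact h
    have hf0 : f {⊥} = (Nat.card D : ℤ) *
        ({f : D → F | f ∈ IBr F D ∧ actF e f = f}.ncard : ℤ) := by
      have h1 : lnum (⊤ : Subgroup D) e = {f : D → F | f ∈ IBr F D ∧ actF e f = f}.ncard := by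
        rw [H75.lnum_eq]
        exact H75.cnt_equiv Subgroup.topEquiv e
      simp only [hf, hstab0, Finset.card_singleton]
      rw [h1, Subgroup.card_top]
      ring
    have hf1 : ∀ V ∈ C, f {⊥, V} = -((Nat.card NU : ℤ) * (lnum NU e : ℤ)) := by
      intro V hV
      obtain ⟨g, -, rfl⟩ := Finset.mem_image.1 hV
      have h1 : ({⊥, conjS g U} : Finset (Subgroup D)).card = 2 :=
        Finset.card_pair (conjS_ne_bot hU g).symm
      have h2 : Nat.card (conjS g NU : Subgroup D) = Nat.card NU :=
        (Nat.card_congr (conjSEquiv g NU).toEquiv).symm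
      have h3 : lnum (conjS g NU) e = lnum NU e := by
        rw [conjS, H75.lnum_map _ (MulAut.conj g).injective]
        have h4 : (fun x => e ((MulAut.conj g).toMonoidHom x)) = e := by
          funext x
          exact he x g
        rw [h4]
      simp only [hf]
      rw [h1, hstab1, norm_conjS, ← hNU, h2, h3]
      ring
    have hcard : (C.card : ℤ) * (Nat.card NU : ℤ) = (Nat.card D : ℤ) := by
      have h1 : Fintype.card D = ∑ V ∈ C, (Finset.univ.filter fun g : D => conjS g U = V).card := by
        rw [← Finset.card_univ]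
        exact Finset.card_eq_sum_card_fiberwise
          (fun g _ => Finset.mem_image_of_mem _ (Finset.mem_univ g))
      have h2 : ∀ V ∈ C, (Finset.univ.filter fun g : D => conjS g U = V).card = Nat.card NU := by
        intro V hV
        obtain ⟨k, -, rfl⟩ := Finset.mem_image.1 hV
        rw [← card_fib U k, Nat.card_eq_fintype_card, Fintype.card_subtype]
      rw [Finset.sum_congr rfl h2, Finset.sum_const, smul_eq_mul] at h1
      rw [Nat.card_eq_fintype_card (α := D), h1]
      push_cast
      ring
    refine (Finset.sum_congr (s₂ := insert {⊥} (C.image fun V => {⊥, V}))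
      (by rw [← hclosed]; ext d; simp only [Finset.mem_filter]) fun _ _ => rfl).trans ?_
    rw [Finset.sum_insert, hf0, Finset.sum_image, Finset.sum_congr rfl hf1,
      Finset.sum_const, nsmul_eq_mul, ← hcard]
    · ring
    · intro V hV W hW h
      have h1 : V ∈ ({⊥, W} : Finset (Subgroup D)) := by
        have h2 : V ∈ ({⊥, V} : Finset (Subgroup D)) :=
          Finset.mem_insert_of_mem (Finset.mem_singleton_self _)
        have h3 : ({⊥, V} : Finset (Subgroup D)) = {⊥, W} := h
        rwa [h3] at h2
      obtain ⟨g, -, hg⟩ := Finset.mem_image.1 (Finset.mem_coe.1 hV)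
      rcases Finset.mem_insert.1 h1 with h2 | h2
      · exact absurd (hg.trans h2) (conjS_ne_bot hU g)
      · exact Finset.mem_singleton.1 h2
    · intro h
      obtain ⟨V, hV, h1⟩ := Finset.mem_image.1 h
      obtain ⟨g, -, hg⟩ := Finset.mem_image.1 hV
      have h2 : V ∈ ({⊥} : Finset (Subgroup D)) := by
        rw [← h1]
        exact Finset.mem_insert_of_mem (Finset.mem_singleton_self _)
      exact absurd (hg.trans (Finset.mem_singleton.1 h2)) (conjS_ne_bot hU g)
  · intro P hP
    rw [H75.mem_psubIn'] at hP ⊢
    exact ⟨le_top, (hcl P hP.2).2⟩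
  · intro P hP
    exact (hcl P (H75.mem_psubIn'.1 hP).2).1
  · intro P hP Q hQ hPQ
    by_cases h : P = ⊥
    · rw [h, cl_bot]
      exact bot_le
    · have hQ1 : Q ≠ ⊥ := fun h' => h (le_bot_iff.1 (h' ▸ hPQ))
      obtain ⟨g, hg⟩ := syl Q (H75.mem_psubIn'.1 hQ).2
      rw [cl_eq ti hQ1 hg, cl_eq ti h (hPQ.trans hg)]
  · intro P hP
    by_cases h : P = ⊥
    · rw [h, cl_bot, cl_bot]
    · obtain ⟨g, hg⟩ := syl P (H75.mem_psubIn'.1 hP).2
      rw [cl_eq ti h hg, cl_eq ti (conjS_ne_bot hU g) le_rfl]
  · exact cl_bot U
  · intro P _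
    exact bot_le
  · intro d hd P hP hPn
    have hPp := (H75.mem_psubIn'.1 ((mem_chainsOn.1 hd).1 hP)).2
    have hst : stab (insert (cl U P) d) = stab d := by
      apply stab_insert_of hP
      intro g hg
      by_cases h : P = ⊥
      · rw [h, cl_bot, conjS, Subgroup.map_bot]
      · obtain ⟨k, hk⟩ := syl P hPp
        rw [cl_eq ti h hk, conjS_conjS]
        apply conj_unique ti h _ hk
        rw [← conjS_conjS]
        have := conjS_mono (g := g).2 hk
        rwa [hg] at this
    simp only [hf]
    rw [hst, Finset.card_insert_of_notMem hPn]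
    ring

/-- **BCH** -/
theorem ch : ChStmt := by
  intro ℓ _ F _ D _ _ M U T n hD e he
  exact tic (hD.bn.pU.of_equiv (Subgroup.subgroupOfEquivOfLe hD.UM)) hD.ne hD.syl hD.ti he

end Pool.Agent.PP.BN.H9
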